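import Pool.Agent.H39.Th2

namespace Pool.Agent.Results.MP_351e8f_co.NoBorel

open Set Function Filter MeasureTheory FirstOrder FirstOrder.Language
open Pool.Agent.H39.Th Pool.Agent.H39.FG
open scoped symmDiff

/-- the relational language with predicate symbols `S` and arities `k` -/
def lang {S : Type} (k : S → ℕ) : Language := ⟨fun _ => Empty, fun n => {P : S // k P = n}⟩

/-- the cube `[0,1]^{r(V)}`, indexed by the non-empty subsets of `V` -/
abbrev E (V : Type) : Type := {A : Finset V // A.Nonempty} → unitInterval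

/-- the map `α^*` -/
def pull {V : Type} {n : ℕ} (α : Fin n ↪ V) (x : E V) : E (Fin n) :=
  fun A => x ⟨A.1.map α, A.2.map⟩

variable {S : Type} {k : S → ℕ} {V : Type}

/-- `P^M(v)` -/
def holds (M : (lang k).Structure V) (P : S) (v : Fin (k P) → V) : Prop :=
  @Structure.RelMap (lang k) V M (k P) ⟨P, rfl⟩ v

/-- predicates are false on tuples with a repeated entry -/
def Canon (M : (lang k).Structure V) : Prop := ∀ P v, ¬ Injective v → ¬ holds M P v

/-- `M` is a model of `T` -/
def Models (T : (lang k).Theory) (M : (lang k).Structure V) : Prop := @Theory.Model _ V M T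

/-- `T_ind(M, N)` -/
def Tind (N : ∀ P, Set (E (Fin (k P)))) (M : (lang k).Structure V) : Set (E V) :=
  {x | ∀ (P : S) (α : Fin (k P) ↪ V), pull α x ∈ N P ↔ holds M P α}

/-- the diagonal -/
def Diag (V : Type) : Set (E V) :=
  {x | ∃ i j : V, i ≠ j ∧
    x ⟨{i}, Finset.singleton_nonempty i⟩ = x ⟨{j}, Finset.singleton_nonempty j⟩}

/-- strong `T`-on: Lebesgue measurable peons, and finite canonical non-models occur only on the
diagonal -/
def Strong (T : (lang k).Theory) (N : ∀ P, Set (E (Fin (k P)))) : Prop :=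
  (∀ P, NullMeasurableSet (N P) volume) ∧
    ∀ (V : Type) [Finite V] (M : (lang k).Structure V), Canon M → ¬ Models T M → Tind N M ⊆ Diag V

/-- the universal theory of the finite structures that occur off the diagonal -/
def th (N : ∀ P, Set (E (Fin (k P)))) : (lang k).Theory :=
  {φ | φ.IsUniversal ∧ ∀ (V : Type) [Finite V] (M : (lang k).Structure V), Canon M →
    ¬ Tind N M ⊆ Diag V → @Sentence.Realize _ V M φ}

theorem univ_alls {L : Language} {n : ℕ} {φ : L.BoundedFormula Empty n} (h : φ.IsUniversal) :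
    φ.alls.IsUniversal := by
  induction n with
  | zero => exact h
  | succ n ih => exact ih h.all

theorem qf_iInf {L : Language} {n : ℕ} {β : Type} [Finite β] {f : β → L.BoundedFormula Empty n}
    (h : ∀ b, (f b).IsQF) : (BoundedFormula.iInf f).IsQF := by
  unfold BoundedFormula.iInf
  dsimp only
  generalize (@Finset.univ β (Fintype.ofFinite β)).toList = l
  induction l with
  | nil => exact BoundedFormula.IsQF.top
  | cons a l ih => exact (h a).inf ih

/-- atomic formula -/
def atom {n : ℕ} (P : S) (α : Fin (k P) → Fin n) : (lang k).BoundedFormula Empty n :=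
  Relations.boundedFormula (⟨P, rfl⟩ : (lang k).Relations (k P)) fun i => Term.var (Sum.inr (α i))

/-- equality of two variables -/
def eqv {n : ℕ} (i j : Fin n) : (lang k).BoundedFormula Empty n :=
  Term.bdEqual (Term.var (Sum.inr i)) (Term.var (Sum.inr j))

theorem qf_atom {n : ℕ} (P : S) (α : Fin (k P) → Fin n) : (atom P α).IsQF := Relations.isQF _ _

theorem qf_eqv {n : ℕ} (i j : Fin n) : (eqv (k := k) i j).IsQF :=
  (BoundedFormula.IsAtomic.equal _ _).isQF

theorem real_atom [M : (lang k).Structure V] {n : ℕ} (P : S) (α : Fin (k P) → Fin n)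
    (v : Fin n → V) : (atom P α).Realize default v ↔ holds M P (v ∘ α) := by
  exact BoundedFormula.realize_rel

theorem real_eqv [(lang k).Structure V] {n : ℕ} (i j : Fin n) (v : Fin n → V) :
    (eqv (k := k) i j).Realize default v ↔ v i = v j := by
  simp [eqv]

theorem real_alls [(lang k).Structure V] {n : ℕ} (φ : (lang k).BoundedFormula Empty n) :
    V ⊨ φ.alls ↔ ∀ v : Fin n → V, φ.Realize default v := BoundedFormula.realize_alls

theorem th_canon (N : ∀ P, Set (E (Fin (k P)))) (M : (lang k).Structure V) (h : Models (th N) M) :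
    Canon M := by
  intro P v hv hP
  obtain ⟨i, j, h1, h2⟩ := not_injective_iff.1 hv
  have h3 : ((eqv i j).imp (atom P id).not).alls ∈ th N := by
    refine ⟨univ_alls ((qf_eqv i j).imp (qf_atom P id).not).isUniversal, fun W _ M' hM' _ => ?_⟩
    refine (real_alls _).2 fun w => ?_
    rw [BoundedFormula.realize_imp, BoundedFormula.realize_not, real_eqv, real_atom]
    exact fun e => hM' P _ fun hw => h2 (hw e)
  have h4 := (real_alls _).1 (h.realize_of_mem _ h3) v
  rw [BoundedFormula.realize_imp, BoundedFormula.realize_not, real_eqv, real_atom] at h4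
  exact h4 h1 hP

theorem th_copy [Finite S] (N : ∀ P, Set (E (Fin (k P)))) {n : ℕ} (M : (lang k).Structure (Fin n))
    (h : Models (th N) M) : ∃ x : E (Fin n), ∀ (P : S) (α : Fin (k P) ↪ Fin n),
      pull α x ∈ N P ↔ holds M P α := by
  classical
  let δ : (lang k).BoundedFormula Empty n :=
    (BoundedFormula.iInf fun p : {p : Fin n × Fin n // p.1 ≠ p.2} => (eqv p.1.1 p.1.2).not) ⊓
      BoundedFormula.iInf fun p : (Σ P, Fin (k P) → Fin n) =>
        if holds M p.1 p.2 then atom p.1 p.2 else (atom p.1 p.2).not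
  have hq : δ.IsQF := (qf_iInf fun _ => (qf_eqv _ _).not).inf (qf_iInf fun p => by
    split_ifs
    exacts [qf_atom _ _, (qf_atom _ _).not])
  have hr : ∀ (W : Type) [M' : (lang k).Structure W] (v : Fin n → W), δ.Realize default v ↔
      Injective v ∧ ∀ P α, holds M' P (v ∘ α) ↔ holds M P α := by
    intro W M' v
    rw [BoundedFormula.realize_inf, BoundedFormula.realize_iInf, BoundedFormula.realize_iInf]
    refine and_congr ?_ ?_
    · simp only [BoundedFormula.realize_not, real_eqv]
      exact ⟨fun h i j e => by_contra fun hne => h ⟨(i, j), hne⟩ e, fun h p e => p.2 (h e)⟩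
    · rw [Sigma.forall]
      refine forall₂_congr fun P α => ?_
      split_ifs with h
      · simp [real_atom, h]
      · simp [real_atom, h]
  have h1 : δ.not.alls ∉ th N := fun hm =>
    (real_alls _).1 (h.realize_of_mem _ hm) id ((hr _ id).2 ⟨injective_id, fun _ _ => Iff.rfl⟩)
  have h2 : ¬ ∀ (V : Type) [Finite V] (M : (lang k).Structure V), Canon M →
      ¬ Tind N M ⊆ Diag V → @Sentence.Realize _ V M δ.not.alls :=
    fun h => h1 ⟨univ_alls hq.not.isUniversal, h⟩
  push Not at h2
  obtain ⟨W, _, M', -, h3, h4⟩ := h2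
  obtain ⟨x, hx, -⟩ := not_subset.1 h3
  obtain ⟨v, hv⟩ := not_forall.1 ((real_alls _).not.1 h4)
  obtain ⟨h5, h6⟩ := (hr W v).1 (not_not.1 hv)
  refine ⟨pull ⟨v, h5⟩ x, fun P α => Iff.trans ?_ ((hx P (α.trans ⟨v, h5⟩)).trans (h6 P α))⟩
  refine iff_of_eq (congrArg (· ∈ N P) (funext fun A => ?_))
  simp only [pull, Finset.map_map]

/-- singleton coordinates -/
def sg (x : E V) (i : V) : unitInterval := x ⟨{i}, Finset.singleton_nonempty i⟩

theorem sg_pull {n : ℕ} (α : Fin n ↪ V) (x : E V) : sg (pull α x) = sg x ∘ α := funext fun i => by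
  simp only [sg, pull, Finset.map_singleton, comp]

open Classical in
/-- given singleton coordinates, constant higher coordinates -/
noncomputable def emb (η : unitInterval) (s : V → unitInterval) : E V :=
  fun A => if h : ∃ i, A.1 = {i} then s h.choose else η

theorem emb_single (η : unitInterval) (s : V → unitInterval) {A : {A : Finset V // A.Nonempty}}
    {i : V} (h : A.1 = {i}) : emb η s A = s i := by
  have h1 : ∃ i, A.1 = {i} := ⟨i, h⟩
  rw [emb, dif_pos h1, Finset.singleton_injective (h1.choose_spec.symm.trans h)]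

theorem pull_emb {n : ℕ} (α : Fin n ↪ V) (η : unitInterval) (s : V → unitInterval) :
    pull α (emb η s) = emb η (s ∘ α) := funext fun A => by
  by_cases h : ∃ i, A.1 = {i}
  · obtain ⟨i, hi⟩ := h
    rw [emb_single η _ hi]
    exact emb_single η s (by simp [hi])
  · have h1 : ¬ ∃ j, A.1.map α = {j} := fun h' =>
      h (Finset.card_eq_one.1 (by rw [← Finset.card_map α]; exact Finset.card_eq_one.2 h'))
    simp only [pull, emb, dif_neg h, dif_neg h1]

theorem meas_emb {Z : Type} [MeasurableSpace Z] {η : Z → unitInterval} {s : Z → V → unitInterval}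
    (h1 : Measurable η) (h2 : Measurable s) : Measurable fun z => emb (η z) (s z) := by
  refine measurable_pi_lambda _ fun A => ?_
  unfold emb
  split_ifs
  exacts [(measurable_pi_apply _).comp h2, h1]

theorem mp_emb : MeasurePreserving
    (fun z : unitInterval × unitInterval × unitInterval => emb z.1 ![z.2.1, z.2.2])
    volume volume := by
  have hm : Measurable
      (fun z : unitInterval × unitInterval × unitInterval => emb z.1 ![z.2.1, z.2.2]) :=
    meas_emb measurable_fst (measurable_pi_lambda _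
      (Fin.forall_fin_two.2 ⟨measurable_snd.fst, measurable_snd.snd⟩))
  refine ⟨hm, (Measure.pi_eq fun s hs => ?_).symm⟩
  let a : {A : Finset (Fin 2) // A.Nonempty} := ⟨{0, 1}, by decide⟩
  let b : {A : Finset (Fin 2) // A.Nonempty} := ⟨{0}, by decide⟩
  let c : {A : Finset (Fin 2) // A.Nonempty} := ⟨{1}, by decide⟩
  have hu : (Finset.univ : Finset {A : Finset (Fin 2) // A.Nonempty}) = {a, b, c} := by decide
  have hall : ∀ A, A = a ∨ A = b ∨ A = c := fun A => by
    simpa using (hu ▸ Finset.mem_univ A : A ∈ ({a, b, c} : Finset _))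
  have h1 : ∀ (η : unitInterval) (t : Fin 2 → unitInterval), emb η t a = η := fun η t =>
    dif_neg (by decide)
  have h2 : (fun z : unitInterval × unitInterval × unitInterval => emb z.1 ![z.2.1, z.2.2]) ⁻¹'
      (univ.pi s) = s a ×ˢ s b ×ˢ s c := by
    ext ⟨η, x, w⟩
    have e1 : emb η ![x, w] b = x := emb_single η ![x, w] (i := 0) rfl
    have e2 : emb η ![x, w] c = w := emb_single η ![x, w] (i := 1) rfl
    simp only [mem_preimage, mem_univ_pi, mem_prod]
    refine ⟨fun h => ⟨h1 η _ ▸ h a, e1 ▸ h b, e2 ▸ h c⟩, fun h A => ?_⟩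
    rcases hall A with rfl | rfl | rfl
    exacts [(h1 η _).symm ▸ h.1, e1.symm ▸ h.2.1, e2.symm ▸ h.2.2]
  rw [Measure.map_apply hm (MeasurableSet.univ_pi hs), h2, hu,
    Finset.prod_insert (by decide), Finset.prod_insert (by decide), Finset.prod_singleton,
    Measure.volume_eq_prod, Measure.prod_prod, Measure.volume_eq_prod, Measure.prod_prod]

/-- a measurable map onto `ℕ` with non-null fibres -/
noncomputable def κ (w : unitInterval) : ℕ := ⌊(w : ℝ)⁻¹⌋₊ - 1

theorem meas_κ : Measurable κ :=
  (Nat.measurable_floor.comp measurable_subtype_coe.inv).sub_const 1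

theorem κ_fib (n : ℕ) : volume {w | κ w = n} ≠ 0 := by
  have h1 : (0 : ℝ) < n + 1 := by positivity
  let a : unitInterval := ⟨((n : ℝ) + 2)⁻¹, by positivity, inv_le_one_of_one_le₀ (by linarith)⟩
  let b : unitInterval := ⟨((n : ℝ) + 1)⁻¹, by positivity,
    inv_le_one_of_one_le₀ (by linarith [Nat.cast_nonneg (α := ℝ) n])⟩
  have hab : (a : ℝ) < b := inv_strictAnti₀ h1 (by linarith)
  have h0 : volume (Ioo a b) ≠ 0 := by
    rw [unitInterval.volume_Ioo]
    exact (ENNReal.ofReal_pos.2 (sub_pos.2 hab)).ne'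
  refine fun h => h0 (measure_mono_null (fun w hw => ?_) h)
  have h2 : (0 : ℝ) < w := lt_trans (show (0 : ℝ) < ((n : ℝ) + 2)⁻¹ by positivity) hw.1
  have h3 : ⌊(w : ℝ)⁻¹⌋₊ = n + 1 := (Nat.floor_eq_iff (by positivity)).2 ⟨by
    push_cast
    exact ((lt_inv_comm₀ h2 h1).1 hw.2).le, by
    push_cast
    have := (inv_lt_comm₀ (show (0 : ℝ) < n + 2 by positivity) h2).1 hw.1
    linarith⟩
  simp [κ, h3]

theorem meas_rel {Z : Type} [MeasurableSpace Z] {u : Z → Fin 5 → G} (hu : Measurable u) (n : ℕ) :
    Measurable fun z => RelAt (u z) n := by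
  have h : ∀ i m, Measurable fun z => u z i m := fun i m =>
    (measurable_pi_apply m).comp ((measurable_pi_apply i).comp hu)
  exact ((h 2 n).eq ((h 0 n).add (h 1 n))).and
    (((h 3 n).eq ((h 0 n).add_const 1)).and ((h 4 n).eq (h 0 (n + 1))))

theorem meas_ev {Z : Type} [MeasurableSpace Z] {x : Z → G} {l : Z → ℕ} (hx : Measurable x)
    (hl : Measurable l) : Measurable fun z => x z (l z) :=
  (measurable_from_prod_countable_left (f := fun p : G × ℕ => p.1 p.2)
    fun n => measurable_pi_apply n).comp (hx.prodMk hl)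

theorem mp_pair {ι : Type} [Fintype ι] {a b : ι} (h : a ≠ b) :
    MeasurePreserving (fun x : ι → unitInterval => (x a, x b)) volume (volume.prod volume) := by
  refine ⟨by fun_prop, ?_⟩
  rw [volume_pi, ← Measure.infinitePi_eq_pi]
  exact Measure.infinitePi_map_eval_prod h

theorem ae_off {D : unitInterval → G} (hD : MeasurePreserving D volume μ) {n : ℕ} {i j : Fin n}
    (hij : i ≠ j) : ∀ᵐ x : E (Fin n), D (sg x j) ≠ D (sg x i) + one := by
  have h6 : ∀ᵐ a ∂μ.prod μ, a.2 ≠ a.1 + one :=
    (Measure.ae_prod_iff_ae_ae (p := fun a : G × G => a.2 ≠ a.1 + one)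
      (measurableSet_eq_fun measurable_snd (measurable_fst.add_const _)).compl).2
      (Eventually.of_forall fun x => ae_ne μ (x + one))
  have h7 : ∀ᵐ b ∂(volume : Measure unitInterval).prod (volume : Measure unitInterval),
      D b.2 ≠ D b.1 + one := (hD.prod hD).quasiMeasurePreserving.ae h6
  have h8 : (⟨{i}, Finset.singleton_nonempty _⟩ : {A : Finset (Fin n) // A.Nonempty}) ≠
      ⟨{j}, Finset.singleton_nonempty _⟩ := fun h =>
    hij (Finset.singleton_injective (congrArg Subtype.val h))
  have h9 := (mp_pair h8).quasiMeasurePreserving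
  exact h9.ae (p := fun b => D b.2 ≠ D b.1 + one) h7

theorem null_pr {D : unitInterval → G} (hD : MeasurePreserving D volume μ) (p : Sy) :
    NullMeasurableSet {x : E (Fin (ar p)) | pr D κ p (sg x)} volume := by
  have h1 : ∀ {n} (i : Fin n), Measurable fun x : E (Fin n) => D (sg x i) := fun i =>
    hD.measurable.comp (measurable_pi_apply _)
  have h2 : ∀ {n} (i : Fin n), Measurable fun x : E (Fin n) => κ (sg x i) := fun i =>
    meas_κ.comp (measurable_pi_apply _)
  have h3 : ∀ {n} (f : Fin 5 → Fin n) m,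
      Measurable fun x : E (Fin n) => RelAt (fun i => D (sg x (f i))) m := fun f m =>
    meas_rel (measurable_pi_lambda _ fun i => h1 _) m
  cases p with
  | bit => exact ((meas_ev (h1 0) (h2 1)).eq measurable_const).setOf.nullMeasurableSet
  | succ => exact ((h2 1).eq ((h2 0).add_const 1)).setOf.nullMeasurableSet
  | fst => exact ((h2 0).eq measurable_const).setOf.nullMeasurableSet
  | ok =>
    exact (Measurable.forall fun j => (measurableSet_setOfPred.1
      (measurableSet_lt measurable_const (h2 0))).imp (h3 _ j)).setOf.nullMeasurableSet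
  | lt =>
    exact (Measurable.exists fun n => (h3 _ n).not.and
      (Measurable.forall fun j => measurable_const.imp (h3 _ j))).setOf.nullMeasurableSet
  | dg =>
    have h4 : MeasurableSet {x : E (Fin 7) | ∃ n, (¬ RelAt (fun i => D (sg x i.succ.succ)) n ∧
        ∀ j < n, RelAt (fun i => D (sg x i.succ.succ)) j) ∧ D (sg x 0) (n - κ (sg x 1)) = 1} :=
      (Measurable.exists fun n => ((h3 _ n).not.and
        (Measurable.forall fun j => measurable_const.imp (h3 _ j))).and
        ((meas_ev (h1 0) ((h2 1).const_sub n)).eq measurable_const)).setOf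
    refine h4.nullMeasurableSet.congr ?_
    filter_upwards [ae_off hD (show (2 : Fin 7) ≠ 5 by decide)] with x hx
    have h7 : ∃ n, ¬ RelAt (fun i => D (sg x i.succ.succ)) n := by
      by_contra hn
      push Not at hn
      refine hx (funext fun n => ?_)
      have := (hn n).2.1
      exact this
    classical
    change (∃ n, _) = Dg0 _ _ _
    unfold Dg0 Ul
    rw [dif_pos h7]
    refine propext ⟨?_, fun h => ⟨_, ⟨Nat.find_spec h7, fun j hj => not_not.1 (Nat.find_min h7 hj)⟩, h⟩⟩
    rintro ⟨n, ⟨h8, h9⟩, h⟩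
    rw [(Nat.find_eq_iff h7).2 ⟨h8, fun j hj => not_not.2 (h9 j hj)⟩]
    exact h

theorem result : ∃ (S : Type) (_ : Finite S) (k : S → ℕ), (∀ P, 1 ≤ k P) ∧
    ∃ T : (lang k).Theory, T.IsUniversal ∧
      (∀ (V : Type) (M : (lang k).Structure V), Models T M → Canon M) ∧
      ∃ N : ∀ P, Set (E (Fin (k P))), Strong T N ∧
        ∀ N' : ∀ P, Set (E (Fin (k P))), (∀ P, MeasurableSet (N' P)) → Strong T N' →
          ∃ P, volume (N P ∆ N' P) ≠ 0 := by
  obtain ⟨π, D, hi⟩ := iso_any μ (volume : Measure unitInterval)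
  let N : ∀ P, Set (E (Fin (ar P))) := fun P => {x | pr D κ P (sg x)}
  refine ⟨Sy, inferInstance, ar, fun P => by cases P <;> decide, th N, ⟨fun _ h => h.1⟩,
    fun V M => th_canon N M, N, ⟨null_pr hi.m2, fun V _ M hM hn => by_contra fun h =>
      hn ⟨fun φ hφ => hφ.2 V M hM h⟩⟩, fun N' hm hs => by_contra fun hno => ?_⟩
  push Not at hno
  have h1 : ∀ P, ∀ᵐ x, x ∈ N' P ↔ x ∈ N P := fun P =>
    (measure_symmDiff_eq_zero_iff.1 (hno P)).symm.mem_iff
  obtain ⟨η, hη⟩ := (Measure.ae_ae_of_ae_prod (mp_emb.quasiMeasurePreserving.ae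
    ((h1 .bit).and ((h1 .succ).and (h1 .fst))))).exists
  refine core volume hi κ_fib (fun P s => emb η s ∈ N' P)
    (meas_emb measurable_const measurable_id (hm .lt))
    (meas_emb measurable_const measurable_id (hm .dg)) (fun F hF => ?_) ?_
  · obtain ⟨n, e, he, rfl⟩ := hF.fin_param
    let M : (lang ar).Structure (Fin n) :=
      ⟨fun f => f.elim, fun {m} P v => Injective v ∧ emb η (e ∘ v ∘ Fin.cast P.2) ∈ N' P.1⟩
    have hM : ∀ P v, holds M P v ↔ Injective v ∧ emb η (e ∘ v) ∈ N' P := fun _ _ => Iff.rfl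
    have h3 : Models (th N) M := by
      by_contra hn
      have h4 : emb η e ∈ Tind N' M := fun P α => by
        rw [hM, pull_emb]
        exact ⟨fun h => ⟨α.injective, h⟩, fun h => h.2⟩
      obtain ⟨i, j, hij, h⟩ := hs.2 _ M (fun P v hv h => hv h.1) hn h4
      rw [emb_single η e rfl, emb_single η e rfl] at h
      exact hij (he h)
    obtain ⟨x, hx⟩ := th_copy N M h3
    refine ⟨Function.extend e (sg x) id, fun P s hs hF => ?_⟩
    choose α hα using hF
    obtain rfl : s = e ∘ α := funext fun i => (hα i).symm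
    have h4 := hx P ⟨α, hs.of_comp⟩
    rw [hM] at h4
    change pr D κ P (sg (pull _ x)) ↔ _ at h4
    rw [sg_pull] at h4
    rw [← comp_assoc, Function.extend_comp he]
    exact ⟨fun h => h4.2 ⟨hs.of_comp, h⟩, fun h => (h4.1 h).2⟩
  · filter_upwards [Measure.ae_ae_of_ae_prod hη] with x hx
    filter_upwards [hx] with w hw
    have e1 : sg (emb η ![x, w]) = ![x, w] := funext fun i => emb_single η _ rfl
    simp only [N, mem_ofPred_eq] at hw
    erw [e1] at hw
    exact hw

end Pool.Agent.Results.MP_351e8f_co.NoBorel
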